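import Mathlib
import Pool.Agent.R230.NBMain

/-!
# Ball functions, smooth up to the sphere, with natural boundary on all affine discs

The function is `f (z) = ∑_k exp (- N_k) ⟨z, ξ_k⟩ ^ (N_k ^ 2)` with `N_k = 2 ^ (3 ^ k)` and a sequence of
unit vectors `ξ_k` that comes infinitely often arbitrarily close to every unit vector.

If `f (a + λ b)` had a holomorphic extension across a point `τ` of the unit circle, the differences
between the extension and the partial sums of the series would, by the three circles theorem, still be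
very small at the points `τ (1 + s)`, `s > 0` small. But when `ξ_k` is close to `a + τ b`, the `k`-th term
is at these points exponentially large in comparison with all the previous ones.
-/

set_option autoImplicit false

open Metric Set

namespace Pool.Agent.Results.MP_ca9574_an.NaturalBoundary

/-- `f ∈ A^∞(B)`: `f` is continuous on the closed unit ball of `ℂⁿ`, holomorphic in the open unit ball
`B`, and for every `p` the `p`-th complex derivative (that is, all the partial derivatives of order
`p`) extends continuously from `B` to the closed ball. -/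
def IsAInfty {n : ℕ} (f : EuclideanSpace ℂ (Fin n) → ℂ) : Prop :=
  ContinuousOn f (closedBall 0 1) ∧ DifferentiableOn ℂ f (ball 0 1) ∧
    ∀ p : ℕ, ∃ G : EuclideanSpace ℂ (Fin n) →
        ContinuousMultilinearMap ℂ (fun _ : Fin p => EuclideanSpace ℂ (Fin n)) ℂ,
      ContinuousOn G (closedBall 0 1) ∧
        ∀ z ∈ ball (0 : EuclideanSpace ℂ (Fin n)) 1, iteratedFDeriv ℂ p f z = G z

/-- The function `g`, holomorphic in the unit disc, has the unit circle as its natural boundary: for no
point `τ` of the circle is there a holomorphic function `h` on an open disc containing `τ` which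
coincides with `g` on the common part of this disc and the unit disc. -/
def HasNaturalBoundary (g : ℂ → ℂ) : Prop :=
  ∀ τ : ℂ, ‖τ‖ = 1 → ¬ ∃ (c : ℂ) (ρ : ℝ) (h : ℂ → ℂ), τ ∈ ball c ρ ∧
    DifferentiableOn ℂ h (ball c ρ) ∧ ∀ w ∈ ball c ρ ∩ ball 0 1, h w = g w

/-- Property (NB): `f ∘ Φ` has the unit circle as its natural boundary for all nonconstant affine maps
`Φ (w) = a + w b` which map the unit circle into the unit sphere. -/
def PropertyNB {n : ℕ} (f : EuclideanSpace ℂ (Fin n) → ℂ) : Prop :=
  ∀ a b : EuclideanSpace ℂ (Fin n), b ≠ 0 → (∀ w : ℂ, ‖w‖ = 1 → a + w • b ∈ sphere 0 1) →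
    HasNaturalBoundary (fun w => f (a + w • b))

/-- In every dimension `n ≥ 1` there is a function in `A^∞(B)` with property (NB). -/
theorem result : ∀ n : ℕ, 1 ≤ n →
    ∃ f : EuclideanSpace ℂ (Fin n) → ℂ, IsAInfty f ∧ PropertyNB f := by
  intro n hn
  obtain ⟨ξ, hξ, hrec⟩ := Pool.Agent.R230.NB.exists_recurrent hn
  refine ⟨Pool.Agent.R230.NB.ff ξ, ⟨Pool.Agent.R230.NB.ff_continuousOn hξ,
    Pool.Agent.R230.NB.ff_differentiableOn hξ, fun p => ⟨_, Pool.Agent.R230.NB.ff_extends hξ p,
      fun z hz => Pool.Agent.R230.NB.ff_iter hξ p z hz⟩⟩, ?_⟩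
  rintro a b hb hab τ hτ ⟨c, ρ, h, hτc, hd, heq⟩
  exact Pool.Agent.R230.NB.no_ext hξ hrec hb (fun w hw => by simpa using hab w hw) hτ hτc hd heq

end Pool.Agent.Results.MP_ca9574_an.NaturalBoundary
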